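import Mathlib

/-!
MP_c37615_al (S02984): common definitions. See /team-store/MP_c37615_PAPER.md.
-/

set_option autoImplicit false

namespace C37

/-- the 7-dimensional space -/
abbrev V := Fin 7 → ℝ

abbrev Mat := Matrix (Fin 7) (Fin 7) ℝ

/-- the vector with given coordinates -/
def vec7 (a b c d e f g : ℝ) : V := ![a, b, c, d, e, f, g]

/-- the split cross product; `B (cross u v) w = phi u v w` -/
def cross (u v : V) : V :=
  ![ (u 1 * v 2 - u 2 * v 1) - (u 3 * v 4 - u 4 * v 3) - (u 5 * v 6 - u 6 * v 5),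
     -(u 0 * v 2 - u 2 * v 0) - (u 3 * v 5 - u 5 * v 3) + (u 4 * v 6 - u 6 * v 4),
     (u 0 * v 1 - u 1 * v 0) + (u 3 * v 6 - u 6 * v 3) + (u 4 * v 5 - u 5 * v 4),
     -(u 0 * v 4 - u 4 * v 0) - (u 1 * v 5 - u 5 * v 1) + (u 2 * v 6 - u 6 * v 2),
     (u 0 * v 3 - u 3 * v 0) + (u 1 * v 6 - u 6 * v 1) + (u 2 * v 5 - u 5 * v 2),
     -(u 0 * v 6 - u 6 * v 0) + (u 1 * v 3 - u 3 * v 1) - (u 2 * v 4 - u 4 * v 2),
     (u 0 * v 5 - u 5 * v 0) - (u 1 * v 4 - u 4 * v 1) - (u 2 * v 3 - u 3 * v 2) ]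

/-- the invariant bilinear form -/
def B (u v : V) : ℝ :=
  u 0 * v 0 + u 1 * v 1 + u 2 * v 2 - u 3 * v 3 - u 4 * v 4 - u 5 * v 5 - u 6 * v 6

def det3 (a b c d e f g h i : ℝ) : ℝ := a * (e * i - f * h) - b * (d * i - f * g) + c * (d * h - e * g)

def e3 (i j k : Fin 7) (u v w : V) : ℝ :=
  det3 (u i) (u j) (u k) (v i) (v j) (v k) (w i) (w j) (w k)

/-- the frozen three-form -/
def phi (u v w : V) : ℝ :=
  e3 0 1 2 u v w - e3 0 3 4 u v w - e3 0 5 6 u v w
    - e3 1 3 5 u v w + e3 1 4 6 u v w + e3 2 3 6 u v w + e3 2 4 5 u v w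

theorem B_cross (u v w : V) : B (cross u v) w = phi u v w := by
  simp [B, cross, phi, e3, det3]
  ring

/-- `q u = B u u` -/
def q (u : V) : ℝ := B u u

/-- matrices preserving the three-form -/
def InG (g : Mat) : Prop :=
  ∀ u v w : V, phi (g.mulVec u) (g.mulVec v) (g.mulVec w) = phi u v w

/-- the null basis -/
def va : V := ![0, 0, 0, 1, 0, 0, 0]
noncomputable def x1 : V := ![1/2, 0, 0, 0, -1/2, 0, 0]
noncomputable def x2 : V := ![0, 1/2, 0, 0, 0, -1/2, 0]
noncomputable def x3 : V := ![0, 0, -1/2, 0, 0, 0, -1/2]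
noncomputable def y1 : V := ![-1/2, 0, 0, 0, -1/2, 0, 0]
noncomputable def y2 : V := ![0, -1/2, 0, 0, 0, -1/2, 0]
noncomputable def y3 : V := ![0, 0, 1/2, 0, 0, 0, -1/2]

theorem cross_x1_x2 : cross x1 x2 = y3 := by
  ext i; fin_cases i <;> simp [cross, x1, x2, y3] <;> norm_num
theorem cross_x2_x3 : cross x2 x3 = y1 := by
  ext i; fin_cases i <;> simp [cross, x2, x3, y1] <;> norm_num
theorem cross_x3_x1 : cross x3 x1 = y2 := by
  ext i; fin_cases i <;> simp [cross, x1, x3, y2] <;> norm_num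
theorem cross_y1_y2 : cross y1 y2 = -x3 := by
  ext i; fin_cases i <;> simp [cross, y1, y2, x3] <;> norm_num
theorem cross_va_x1 : cross va x1 = x1 := by
  ext i; fin_cases i <;> simp [cross, va, x1] <;> norm_num
theorem cross_va_x3 : cross va x3 = x3 := by
  ext i; fin_cases i <;> simp [cross, va, x3]
theorem cross_va_y3 : cross va y3 = -y3 := by
  ext i; fin_cases i <;> simp [cross, va, y3] <;> norm_num
theorem cross_x1_y1 : cross x1 y1 = (1/2 : ℝ) • va := by
  ext i; fin_cases i <;> simp [cross, va, x1, y1] <;> norm_num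
theorem cross_x3_y3 : cross x3 y3 = (1/2 : ℝ) • va := by
  ext i; fin_cases i <;> simp [cross, va, x3, y3] <;> norm_num

/-- the double cross product identity -/
theorem cross_cross_self (u v : V) : cross u (cross u v) = (-(B u u)) • v + (B u v) • u := by
  ext i; fin_cases i <;> simp [cross, B] <;> ring

theorem q_cross (u v : V) : B (cross u v) (cross u v) = B u u * B v v - B u v ^ 2 := by
  simp [cross, B]; ring

/-- crystallographic groups with linear part Zariski dense in split G_2 -/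
structure Cryst (Γ : Subgroup (V ≃ᵃ[ℝ] V)) : Prop where
  proper : ∀ K : Set V, IsCompact K → {γ : V ≃ᵃ[ℝ] V | γ ∈ Γ ∧ ((⇑γ) '' K ∩ K).Nonempty}.Finite
  cocompact : ∃ K : Set V, IsCompact K ∧ ∀ x : V, ∃ γ ∈ Γ, x ∈ (⇑γ) '' K
  inG : ∀ γ ∈ Γ, ∀ u v w : V, phi (γ.linear u) (γ.linear v) (γ.linear w) = phi u v w
  zd : ∀ P : MvPolynomial (Fin 7 × Fin 7) ℝ,
    (∀ γ ∈ Γ, MvPolynomial.eval (fun p : Fin 7 × Fin 7 =>
      LinearMap.toMatrix' γ.linear.toLinearMap p.1 p.2) P = 0) →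
    ∀ A : Mat, InG A → MvPolynomial.eval (fun p : Fin 7 × Fin 7 => A p.1 p.2) P = 0

/-- linear part as a matrix -/
noncomputable def lin (γ : V ≃ᵃ[ℝ] V) : Mat := LinearMap.toMatrix' γ.linear.toLinearMap

end C37
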