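import Mathlib
import Pool.Agent.Lib.MP_c37615_al.Defs

/-!
MP_c37615_al (S02984): further shared definitions (never change this file)
-/

set_option autoImplicit false

open Filter Topology
open scoped ContDiff

namespace C37

/-- split G_2 as a subgroup of GL_7(R) -/
def Gs : Subgroup (GL (Fin 7) ℝ) where
  carrier := {g | InG (g : Mat)}
  one_mem' := by intro u v w; simp
  mul_mem' := by
    intro g h hg hh u v w
    have := hg ((h : Mat).mulVec u) ((h : Mat).mulVec v) ((h : Mat).mulVec w)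
    simp only [Matrix.mulVec_mulVec] at this
    simpa using this.trans (hh u v w)
  inv_mem' := by
    intro g hg u v w
    have h1 : ∀ u : V, ((g : GL (Fin 7) ℝ) : Mat).mulVec (((g⁻¹ : GL (Fin 7) ℝ) : Mat).mulVec u) = u := by
      intro u
      rw [Matrix.mulVec_mulVec, ← Units.val_mul]
      simp
    have := hg (((g⁻¹ : GL (Fin 7) ℝ) : Mat).mulVec u) (((g⁻¹ : GL (Fin 7) ℝ) : Mat).mulVec v)
      (((g⁻¹ : GL (Fin 7) ℝ) : Mat).mulVec w)
    rw [h1, h1, h1] at this
    exact this.symm

abbrev GG := Gs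

/-- maximal compact subgroup -/
def Kset : Set GG := {k | ((k : GL (Fin 7) ℝ) : Mat).transpose * ((k : GL (Fin 7) ℝ) : Mat) = 1}

abbrev X := Fin 8 → ℝ

/-- coordinates on span(x), span(y) -/
noncomputable def xv (c : Fin 3 → ℝ) : V := c 0 • x1 + c 1 • x2 + c 2 • x3
noncomputable def yv (c : Fin 3 → ℝ) : V := c 0 • y1 + c 1 • y2 + c 2 • y3

/-- smooth orientation preserving proper actions on R^m -/
structure GoodAction (Γ : Type) [Group Γ] (m : ℕ) (act : Γ → (Fin m → ℝ) → (Fin m → ℝ)) : Prop where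
  one : ∀ x, act 1 x = x
  mul : ∀ g h x, act (g * h) x = act g (act h x)
  smooth : ∀ g, ContDiff ℝ ∞ (act g)
  pos : ∀ g x, 0 < (fderiv ℝ (act g) x).det
  proper : ∀ K : Set (Fin m → ℝ), IsCompact K → {g : Γ | (act g '' K ∩ K).Nonempty}.Finite

end C37
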