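import Mathlib
import Pool.Agent.Lib.MP_c37615_al.Defs2
import Pool.Agent.Lib.MP_c37615_al.Mg.G024

/-!
MP_c37615_al (S02984): final assembly.
-/

set_option autoImplicit false

namespace C37

/-- There is no crystallographic group of affine maps of `R^7` whose linear part is contained and Zariski dense in
split `G_2`. -/
theorem no_cryst (Γ : Subgroup (V ≃ᵃ[ℝ] V)) : ¬ Cryst Γ := PC.no_cryst_C Γ

end C37
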